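import Pool.Agent.Lib.P5135a5.Reduction

set_option autoImplicit false

namespace Pool.Agent.Results.MP_5135a5_co.EncodesUpperDom

open Pool.Agent.Lib.P5135a5

/-- For every finite graph `H` and every `k ≥ 2`, the graph `(H ⊔ K₁) ∨ k K₂` satisfies
`Γ_t = 2 Γ` if and only if `Γ(H) < k`. -/
theorem result {W : Type} [Fintype W] (H : SimpleGraph W) (k : ℕ) (hk : 2 ≤ k) :
    upperTotalDom (joinGraph H k) = 2 * upperDom (joinGraph H k) ↔ upperDom H < k :=
  reduction H hk

end Pool.Agent.Results.MP_5135a5_co.EncodesUpperDom
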