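import Pool.Agent.Lib.P5135n.Final4
import Pool.Agent.Lib.P5135n.Final5
import Pool.Agent.Lib.P5135n.TwoPt
import Pool.Agent.Lib.P5135n.IsoCls

/-!
# The typical structure and the number of the graphs with `Γ_t = 2 Γ`
-/

set_option autoImplicit false

open Filter Topology

namespace Pool.Agent.Lib.Reserve.MP_5135a5_co.TypicalStructure2

open Pool.Agent.Lib.P5135a5 Pool.Agent.Lib.P5135n

/-- `Ext G`: `G` has no isolated vertex and `Γ_t(G) = 2 Γ(G)`. `SG G`: `G` has an induced matching such that every vertex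
outside is adjacent to both ends of one of its edges.
(1) `Ext G` implies `SG G` for every finite graph.
(2) Almost every graph with `SG G` satisfies `Ext G` and has exactly one induced matching with `Γ(G)` edges.
(3) An asymptotic formula for the number of graphs on `n` labelled vertices with `Ext G`.
(4) The logarithmic asymptotics, with `β = log 2 / log (4 / 3)`.
(5) For some `κ n ~ β log₂ n`, almost every `G` with `Ext G` has `Γ(G) = κ n` or `Γ(G) = κ n + 1`.
(6) Almost every `G` with `Ext G` has diameter at most 2.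
(7) The number of isomorphism classes with `Ext` is asymptotic to the number in (3) divided by `n!`, and to the number
of isomorphism classes with `SG`. -/
theorem result :
    (∀ (V : Type) [Fintype V] (G : SimpleGraph V), Ext G → SG G) ∧
    Tendsto (fun n : ℕ => (Nat.card {G : SimpleGraph (Fin n) // SG G ∧ Ext G ∧
        ∃! T : Finset (Fin n), IsInducedMatchingSet G T ∧ T.card = 2 * upperDom G} : ℝ) /
      Nat.card {G : SimpleGraph (Fin n) // SG G}) atTop (𝓝 1) ∧
    Tendsto (fun n : ℕ => (Nat.card {G : SimpleGraph (Fin n) // Ext G} : ℝ) /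
      ∑ k ∈ Finset.Icc 1 (n / 2), (n.factorial : ℝ) / ((n - 2 * k).factorial * k.factorial * 2 ^ k) *
        ((4 : ℝ) ^ k - 3 ^ k) ^ (n - 2 * k) * 2 ^ ((n - 2 * k).choose 2)) atTop (𝓝 1) ∧
    Tendsto (fun n : ℕ => Real.logb 2 ((2 : ℝ) ^ (n.choose 2) / Nat.card {G : SimpleGraph (Fin n) // Ext G}) /
      (Real.logb 2 n) ^ 2) atTop (𝓝 (2 * (Real.log 2 / Real.log (4 / 3)) * (Real.log 2 / Real.log (4 / 3) - 1))) ∧
    (∃ κ : ℕ → ℕ, Tendsto (fun n : ℕ => (κ n : ℝ) / Real.logb 2 n) atTop (𝓝 (Real.log 2 / Real.log (4 / 3))) ∧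
      Tendsto (fun n : ℕ => (Nat.card {G : SimpleGraph (Fin n) // Ext G ∧ (upperDom G = κ n ∨ upperDom G = κ n + 1)} : ℝ) /
        Nat.card {G : SimpleGraph (Fin n) // Ext G}) atTop (𝓝 1)) ∧
    Tendsto (fun n : ℕ => (Nat.card {G : SimpleGraph (Fin n) // Ext G ∧
        ∀ u v, u = v ∨ G.Adj u v ∨ ∃ w, G.Adj u w ∧ G.Adj w v} : ℝ) /
      Nat.card {G : SimpleGraph (Fin n) // Ext G}) atTop (𝓝 1) ∧
    (Tendsto (fun n : ℕ => (Nat.card (Quot fun G H : {G : SimpleGraph (Fin n) // Ext G} => Nonempty (G.1 ≃g H.1)) : ℝ) *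
        n.factorial / Nat.card {G : SimpleGraph (Fin n) // Ext G}) atTop (𝓝 1) ∧
      Tendsto (fun n : ℕ => (Nat.card (Quot fun G H : {G : SimpleGraph (Fin n) // Ext G} => Nonempty (G.1 ≃g H.1)) : ℝ) /
        Nat.card (Quot fun G H : {G : SimpleGraph (Fin n) // SG G} => Nonempty (G.1 ≃g H.1))) atTop (𝓝 1)) :=
  ⟨fun _ _ _ h => sg_of_ext h, structure_suffices, exact_asymptotics, main_limit, two_points, diam_two,
    iso_asymptotics, iso_ratio⟩

end Pool.Agent.Lib.Reserve.MP_5135a5_co.TypicalStructure2
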